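import Pool.Agent.helper84.TP.SpecC

/-!
# FRE: a, β, ξ generate the product of a cyclic group and a free group
-/

set_option autoImplicit false

namespace Pool.Agent.TP

open Function

theorem FRE_aux (M1 M2 : Type) [Group M1] [Group M2] (ι : M1 →* M2) (ξ : M2)
    (E F : Subgroup M1) (β : M1) (hE : ∀ j : ℤ, β ^ j ∈ E → j = 0) (hF : ∀ j : ℤ, β ^ j ∈ F → j = 0) :
    ∀ L : List (Fin 2 × Bool), FreeGroup.IsReduced L → ∃ (j : ℤ) (l : List (Bool × M1)),
      FreeGroup.lift ![ι β, ξ] (FreeGroup.mk L) =
        ι β ^ j * (l.map fun p => cond p.1 ξ ξ⁻¹ * ι p.2).prod ∧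
      l.IsChain (fun p q => p.1 ≠ q.1 → p.2 ∉ cond p.1 F E) ∧
      (j = 0 → (L = [] ∧ l = []) ∨ ∃ ε L' g l', L = (1, ε) :: L' ∧ l = (ε, g) :: l') ∧
      (∀ ε L', L = (0, ε) :: L' → 0 < cond ε j (-j)) ∧
      (L = [] → j = 0) ∧ (∀ ε L', L = (1, ε) :: L' → j = 0) := by
  intro L
  induction L with
  | nil =>
    intro _
    refine ⟨0, [], ?_, ?_, ?_, ?_, ?_, ?_⟩
    · rw [FreeGroup.lift_mk]
      simp
    · exact List.isChain_nil
    · intro _
      exact Or.inl ⟨rfl, rfl⟩
    · intro ε L' h
      exact absurd h (by simp)
    · intro _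
      rfl
    · intro ε L' h
      exact absurd h (by simp)
  | cons x L ih =>
    intro hL
    have hL' : FreeGroup.IsReduced L := List.IsChain.tail hL
    obtain ⟨j, l, h1, h2, h3, h4, h5, h6⟩ := ih hL'
    obtain ⟨i, ε⟩ := x
    have hred : ∀ y L', L = y :: L' → i = y.1 → ε = y.2 := by
      intro y L' h h'
      subst h
      exact (List.isChain_cons_cons.1 hL).1 h'
    have hval : FreeGroup.lift ![ι β, ξ] (FreeGroup.mk ((i, ε) :: L)) =
        cond ε (![ι β, ξ] i) (![ι β, ξ] i)⁻¹ * FreeGroup.lift ![ι β, ξ] (FreeGroup.mk L) := by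
      rw [FreeGroup.lift_mk, FreeGroup.lift_mk, List.map_cons, List.prod_cons]
    rw [hval, h1]
    have hi : i = 0 ∨ i = 1 := by omega
    rcases hi with rfl | rfl
    · -- a letter β
      have hj : cond ε (0 ≤ j) (j ≤ 0) := by
        rcases L with _ | ⟨⟨i', ε'⟩, L'⟩
        · have := h5 rfl
          subst this
          cases ε <;> simp
        · have hi' : i' = 0 ∨ i' = 1 := by omega
          rcases hi' with rfl | rfl
          · have he := hred _ _ rfl rfl
            have h7 := h4 ε' L' rfl
            simp only at he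
            subst he
            cases ε
            · simp only [cond_false] at h7 ⊢
              omega
            · simp only [cond_true] at h7 ⊢
              omega
          · have := h6 ε' L' rfl
            subst this
            cases ε <;> simp
      refine ⟨cond ε (1 + j) (-1 + j), l, ?_, h2, ?_, ?_, ?_, ?_⟩
      · cases ε
        · simp only [Matrix.cons_val_zero, cond_false]
          rw [zpow_add, zpow_neg_one, mul_assoc]
        · simp only [Matrix.cons_val_zero, cond_true]
          rw [zpow_add, zpow_one, mul_assoc]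
      · intro hj0
        exfalso
        cases ε
        · simp only [cond_false] at hj hj0
          omega
        · simp only [cond_true] at hj hj0
          omega
      · intro ε' L' h
        have he : ε = ε' := by
          have := List.head_eq_of_cons_eq h
          exact congrArg Prod.snd this
        subst he
        cases ε
        · simp only [cond_false] at hj ⊢
          omega
        · simp only [cond_true] at hj ⊢
          omega
      · intro h
        exact absurd h (by simp)
      · intro ε' L' h
        exact absurd h (by simp)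
    · -- a letter ξ
      refine ⟨0, (ε, β ^ j) :: l, ?_, ?_, ?_, ?_, ?_, ?_⟩
      · simp only [Matrix.cons_val_one, List.map_cons, List.prod_cons, zpow_zero, one_mul, map_zpow, mul_assoc]
        rfl
      · rcases l with _ | ⟨⟨ε1, g⟩, l'⟩
        · exact List.isChain_singleton _
        · refine List.isChain_cons_cons.2 ⟨?_, h2⟩
          intro hne hmem
          apply hne
          have hj : j = 0 := by
            cases ε
            · exact hE j hmem
            · exact hF j hmem
          rcases h3 hj with ⟨_, h⟩ | ⟨ε2, L', g', l'', hL2, hl2⟩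
          · exact absurd h (by simp)
          · have e1 : ε1 = ε2 := congrArg Prod.fst (List.head_eq_of_cons_eq hl2)
            have e2 : ε = ε2 := hred _ _ hL2 rfl
            rw [e1, e2]
      · intro _
        exact Or.inr ⟨ε, L, _, l, rfl, rfl⟩
      · intro ε' L' h
        exact absurd h (by simp)
      · intro _
        rfl
      · intro _ _ _
        rfl

theorem FRE : FRE_stmt := by
  intro M1 M2 _ _ ι ξ E F a β hB hcomm ha hE hF m w hw
  obtain ⟨hinj, hbr⟩ := hB
  have hE' : ∀ j : ℤ, β ^ j ∈ E → j = 0 := by
    intro j hj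
    apply hE 0 j
    rw [zpow_zero, one_mul]
    exact hj
  have hF' : ∀ j : ℤ, β ^ j ∈ F → j = 0 := by
    intro j hj
    apply hF 0 j
    rw [zpow_zero, one_mul]
    exact hj
  obtain ⟨j, l, h1, h2, h3, _⟩ := FRE_aux M1 M2 ι ξ E F β hE' hF' w.toWord FreeGroup.isReduced_toWord
  rw [FreeGroup.mk_toWord] at h1
  have hv : ι (a ^ m * β ^ j) * (l.map fun p => cond p.1 ξ ξ⁻¹ * ι p.2).prod = 1 := by
    rw [map_mul, map_zpow, map_zpow, mul_assoc, ← h1]
    exact hw
  have hl : l = [] := by
    by_contra hl
    exact hbr (a ^ m * β ^ j) l hl h2 hv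
  rw [hl, List.map_nil, List.prod_nil, mul_one] at hv
  have h8 : a ^ m * β ^ j = 1 := hinj (by rw [hv, map_one])
  have hj : j = 0 := hE m j (by rw [h8]; exact E.one_mem)
  have hw1 : w.toWord = [] := by
    rcases h3 hj with h | ⟨ε, L', g, l', _, h⟩
    · exact h.1
    · rw [hl] at h
      exact absurd h (by simp)
  refine ⟨?_, ?_⟩
  · apply ha m
    rw [hj, zpow_zero, mul_one] at h8
    exact h8
  · exact FreeGroup.toWord_eq_nil_iff.1 hw1

end Pool.Agent.TP
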